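import Pool.Agent.H24.LV.TargetsE
import Pool.Agent.H26.LV.TargetsAri
import Pool.Agent.H15.KS.I1

/-!
# The measure of the points seen by the functional: targets (helper50)

Part (e) of the page E21_LV (sections 7 and 8). Real part: SPL MVB PCE LAG PAR PIE SUB DEC HYP TAI CEL
RMC. Functional: GIS FUN SMA SMB BND MKV CIN LOC. Sum: AMD ARC QSM CSM COV ME.
-/

set_option autoImplicit false

open Finset MeasureTheory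
open scoped Polynomial

namespace Pool.Agent.H50.LV

open Pool.Agent.H24.CL Pool.Agent.H24.LV

/-! ### Oscillating integrals of polynomials -/

/-- `∫_a^b e(t y + P(y)) dy` -/
noncomputable def OP (P : ℝ[X]) (t a b : ℝ) : ℂ :=
  ∫ y in a..b, e ((t * y + P.eval y : ℝ) : UnitAddCircle)

/-- the second derivative -/
noncomputable def DD (P : ℝ[X]) : ℝ[X] := Polynomial.derivative (Polynomial.derivative P)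

/-- the second derivative has constant sign on `[a, b]` -/
def Sgn (P : ℝ[X]) (a b : ℝ) : Prop :=
  (∀ y ∈ Set.Icc a b, 0 ≤ (DD P).eval y) ∨ ∀ y ∈ Set.Icc a b, (DD P).eval y ≤ 0

/-- a function is monotone or antitone on `[a, b]` -/
def MA (g : ℝ → ℝ) (a b : ℝ) : Prop :=
  MonotoneOn g (Set.Icc a b) ∨ AntitoneOn g (Set.Icc a b)

/-- one plus the sizes of the coefficients of degree at least two -/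
noncomputable def LP (k : ℕ) (P : ℝ[X]) : ℝ := 1 + ∑ j ∈ Icc 2 k, |P.coeff j|

/-- the polynomial `∑_{i ≥ 1} c_i y^(i+1)` -/
noncomputable def Pc {k : ℕ} (c : Fin k → ℝ) : ℝ[X] :=
  ∑ i : Fin k, if i.val = 0 then 0 else Polynomial.C (c i) * Polynomial.X ^ (i.val + 1)

/-- `1 + ∑_{i ≥ 1} |c_i|` -/
noncomputable def Lam {k : ℕ} (c : Fin k → ℝ) : ℝ :=
  1 + ∑ i : Fin k, if i.val = 0 then 0 else |c i|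

/-- the square of the decay of the integral -/
noncomputable def Am {k : ℕ} (c : Fin k → ℝ) : ℝ := Lam c ^ (-(2 / (k : ℝ)))

/-- SPL: the first derivative test on an interval where the derivative is monotone. -/
def T_SPL : Prop := ∀ (P : ℝ[X]) (t a b μ : ℝ), a ≤ b → 0 < μ → Sgn P a b →
  ∃ p q : ℝ, a ≤ p ∧ p ≤ q ∧ q ≤ b ∧
    (p < q → ∀ y ∈ Set.Icc p q, |t + (Polynomial.derivative P).eval y| ≤ μ) ∧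
    ‖OP P t a b‖ ≤ 2 / μ + (q - p)

/-- MVB: the values where a long interval is flat. -/
def T_MVB : Prop := ∀ (θ θ' : ℝ → ℝ) (α β : ℝ), -1 ≤ α → α ≤ β → β ≤ 1 →
  (∀ y, HasDerivAt θ (θ' y) y) → MA (fun y => |θ' y|) α β →
  ∃ t₀ : ℝ, ∀ t μ p q : ℝ, 1 ≤ μ → α ≤ p → q ≤ β → 1 / μ < q - p →
    (∀ y ∈ Set.Icc p q, |t + θ y| ≤ μ) → |t - t₀| ≤ 5 * μ ^ 2

/-- PCE: the integral over a piece. -/
def T_PCE : Prop := ∃ C : ℝ, 1 ≤ C ∧ ∀ (P : ℝ[X]) (α β : ℝ), -1 ≤ α → α ≤ β → β ≤ 1 →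
  Sgn P α β → MA (fun y => |(DD P).eval y|) α β →
  ∃ t₀ : ℝ, ∀ t a b : ℝ, α ≤ a → a ≤ b → b ≤ β → ‖OP P t a b‖ ^ 2 ≤ C / (1 + |t - t₀|)

/-- LAG: coefficients and small values on an interval. -/
def T_LAG : Prop := ∀ d : ℕ, ∃ C : ℝ, 1 ≤ C ∧ ∀ (P : ℝ[X]) (p q μ : ℝ), P.natDegree ≤ d →
  -1 ≤ p → p < q → q ≤ 1 → (∀ y ∈ Set.Icc p q, |P.eval y| ≤ μ) →
  ∀ j : ℕ, |P.coeff j| * (q - p) ^ d ≤ C * μ

/-- PAR: partition into intervals of constant sign. -/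
def T_PAR : Prop := ∀ (d : ℕ) (P Q : ℝ[X]), P.natDegree ≤ d → Q.natDegree ≤ d →
  ∃ x : ℕ → ℝ, x 0 = -1 ∧ x (2 * d + 1) = 1 ∧ Monotone x ∧ ∀ i < 2 * d + 1,
    ((∀ y ∈ Set.Icc (x i) (x (i + 1)), 0 ≤ P.eval y) ∨
      ∀ y ∈ Set.Icc (x i) (x (i + 1)), P.eval y ≤ 0) ∧
    ((∀ y ∈ Set.Icc (x i) (x (i + 1)), 0 ≤ Q.eval y) ∨
      ∀ y ∈ Set.Icc (x i) (x (i + 1)), Q.eval y ≤ 0)

/-- PIE: the pieces. -/
def T_PIE : Prop := ∀ (k : ℕ) (P : ℝ[X]), P.natDegree ≤ k →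
  ∃ x : ℕ → ℝ, x 0 = -1 ∧ x (2 * k + 1) = 1 ∧ Monotone x ∧ ∀ i < 2 * k + 1,
    Sgn P (x i) (x (i + 1)) ∧ MA (fun y => |(DD P).eval y|) (x i) (x (i + 1))

/-- SUB: the integral is at most the sum over the pieces. -/
def T_SUB : Prop := ∀ (F : ℝ → ℂ) (m : ℕ) (x B : ℕ → ℝ) (a b : ℝ), Continuous F → Monotone x →
  x 0 ≤ a → a ≤ b → b ≤ x m →
  (∀ i < m, ∀ a' b' : ℝ, x i ≤ a' → a' ≤ b' → b' ≤ x (i + 1) → ‖∫ y in a'..b', F y‖ ≤ B i) →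
  ‖∫ y in a..b, F y‖ ≤ ∑ i ∈ range m, B i

/-- DEC: decay in terms of the coefficients. -/
def T_DEC : Prop := ∀ k : ℕ, 2 ≤ k → ∃ C : ℝ, 1 ≤ C ∧ ∀ (P : ℝ[X]) (t a b : ℝ),
  P.natDegree ≤ k → -1 ≤ a → a ≤ b → b ≤ 1 → ‖OP P t a b‖ ^ 2 ≤ C * LP k P ^ (-(2 / (k : ℝ)))

/-- HYP: decay in the frequency. -/
def T_HYP : Prop := ∀ k : ℕ, ∃ (C : ℝ) (m : ℕ), 1 ≤ C ∧ ∀ P : ℝ[X], P.natDegree ≤ k →
  ∃ τ : Fin m → ℝ, ∀ t a b : ℝ, -1 ≤ a → a ≤ b → b ≤ 1 →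
    ‖OP P t a b‖ ^ 2 ≤ C * ∑ i, 1 / (1 + |t - τ i|)

/-- TAI: high frequencies. -/
def T_TAI : Prop := ∀ k : ℕ, ∃ C : ℝ, 1 ≤ C ∧ ∀ (P : ℝ[X]) (t a b : ℝ), P.natDegree ≤ k →
  P.coeff 1 = 0 → -1 ≤ a → a ≤ b → b ≤ 1 → C * LP k P ≤ |t| → ‖OP P t a b‖ ^ 2 ≤ C / t ^ 2

/-- CEL: perturbation of the coefficients. -/
def T_CEL : Prop := ∀ k : ℕ, ∃ C : ℝ, 1 ≤ C ∧ ∀ (P Q : ℝ[X]) (t B : ℝ), P.natDegree ≤ k →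
  Q.natDegree ≤ k → (∀ j : ℕ, |P.coeff j - Q.coeff j| ≤ 1) →
  (∀ a b : ℝ, -1 ≤ a → a ≤ b → b ≤ 1 → ‖OP P t a b‖ ^ 2 ≤ B) →
  ∀ a b : ℝ, -1 ≤ a → a ≤ b → b ≤ 1 → ‖OP Q t a b‖ ^ 2 ≤ C * B

/-- RMC: the real majorant on a cell of coefficients. -/
def T_RMC : Prop := ∀ k : ℕ, 3 ≤ k → ∃ (C : ℝ) (m : ℕ), 1 ≤ C ∧ ∀ c₀ : Fin k → ℝ,
  ∃ τ : Fin m → ℝ, ∀ c : Fin k → ℝ, (∀ i : Fin k, i.val ≠ 0 → |c i - c₀ i| ≤ 1) →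
    ∀ t a b : ℝ, -1 ≤ a → a ≤ b → b ≤ 1 →
      ‖OP (Pc c) t a b‖ ^ 2 ≤ C * ∑ i, Am c₀ / (1 + Am c₀ * |t - τ i|) ∧
      (C * Lam c₀ ≤ |t| → ‖OP (Pc c) t a b‖ ^ 2 ≤ C / t ^ 2)

/-! ### The functional -/

/-- the majorant of the integrals on a cell -/
noncomputable def hh (C A Z : ℝ) {m : ℕ} (τ : Fin m → ℝ) (t : ℝ) : ℝ :=
  if |t| ≤ Z then C * ∑ i, A / (1 + A * |t - τ i|) else C / t ^ 2

/-- GIS: scaling. -/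
def T_GIS : Prop := ∀ (k N : ℕ) (η : Fin k → ℝ) (τ s : ℝ), 1 ≤ N →
  gI N η τ s = ‖OP (Pc fun i : Fin k => η i * (N : ℝ) ^ (i.val + 1)) (N * s) (τ / N)
    (τ / N + 1)‖ ^ 2

/-- FUN: the functional for functions with a majorant. -/
def T_FUN : Prop := ∀ (k q N : ℕ) (f : Fin k → ℤ) (η : Fin k → ℝ) (τ ξ : ℝ) (h : ℝ → ℝ) (n : ℕ)
  (a : Fin n → ℝ) (T : Fin n → ℕ) (x : Fin n → ℤ) (B : Fin n → ℝ), 1 ≤ q → 1 ≤ N →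
  (∀ t, 0 ≤ h t) → (∀ s : ℝ, gI N η τ s ≤ h (N * s)) → (∀ c, 0 ≤ a c ∧ T c ∣ q) →
  (∀ l : ℤ, Al q f l ≤ ∑ c, if ((q / T c : ℕ) : ℤ) ∣ l - x c then a c else 0) →
  (∀ (c : Fin n) (s : Finset ℤ),
    ∑ j ∈ s, h (N * (ξ + (x c : ℝ) / q + (j : ℝ) / (T c : ℝ))) ≤ B c) →
  VF q f N η τ ξ ≤ ∑ c, a c * B c

/-- SMA: a sum of hyperbolas. -/
def T_SMA : Prop := ∀ (A B θ : ℝ) (s : Finset ℤ), 0 < A → 0 < B →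
  ∑ j ∈ s, A / (1 + B * |θ + j|) ≤
    A / (1 + B * ‖(θ : UnitAddCircle)‖) + 8 * (A / B) * (1 + Real.log (s.card + 1))

/-- SMB: the tail. -/
def T_SMB : Prop := ∀ (N T R Z ζ : ℝ) (s : Finset ℤ), 1 ≤ N → 1 ≤ T → T ≤ R → 1 ≤ Z →
  ∑ j ∈ s, (if Z < |N * (ζ + j / T)| then 1 / (N * (ζ + j / T)) ^ 2 else 0) ≤ 50 * R / Z

/-- BND: the sum of the majorant over an arithmetic progression. -/
def T_BND : Prop := ∀ (C A Z N R ζ : ℝ) (T m : ℕ) (τ : Fin m → ℝ) (s : Finset ℤ), 1 ≤ C → 0 < A →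
  1 ≤ Z → 1 ≤ N → 1 ≤ T → (T : ℝ) ≤ R →
  ∑ j ∈ s, hh C A Z τ (N * (ζ + j / T)) ≤
    C * ∑ i, A / (1 + A * N / T * ‖((T * (ζ - τ i / N) : ℝ) : UnitAddCircle)‖) +
      8 * C * m * (T / N) * (1 + Real.log (2 * Z * R + 2)) + 50 * C * R / Z

/-- MKV: Markov's inequality for a sum of bounded functions. -/
def T_MKV : Prop := ∀ (ι : Type) [Fintype ι] (w v : ι → ℝ) (u : ι → UnitAddCircle → ℝ)
  (s δ W : ℝ), (∀ j, 0 ≤ w j) → (∀ j, Continuous (u j)) → (∀ j y, 0 ≤ u j y ∧ u j y ≤ 1) →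
  (∀ j, ∫ y, u j y ^ 2 ≤ v j) → 2 ≤ s → 0 < δ → 0 < W → ∑ j, w j ≤ W →
  volume.real {y | δ ≤ ∑ j, w j * u j y} ≤ δ ^ (-s) * W ^ (s - 1) * ∑ j, w j * v j

/-- CIN: an integral. -/
def T_CIN : Prop := ∀ (T : ℕ) (B : ℝ) (ζ : UnitAddCircle), 1 ≤ T → 0 < B →
  ∫ y : UnitAddCircle, (1 / (1 + B * ‖T • y + ζ‖)) ^ 2 ≤ 2 / B

/-- the coefficients of degree at least two are prime to `q` -/
def Prim {k : ℕ} (q : ℕ) (f : Fin k → ℤ) : Prop :=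
  ∀ d : ℕ, d ∣ q → (∀ i : Fin k, i.val ≠ 0 → (d : ℤ) ∣ f i) → d = 1

/-- LOC: the points seen by the functional for one cell. -/
def T_LOC : Prop := ∀ k : ℕ, 3 ≤ k → ∀ s ε : ℝ, 2 ≤ s → 0 < ε → ∃ C : ℝ, 1 ≤ C ∧
  ∀ (N q : ℕ) (R M' : ℝ) (f : Fin k → ℤ) (c₀ : Fin k → ℝ), 1 ≤ N → 1 ≤ q → (q : ℝ) ≤ R →
    1 ≤ M' → C * (R * M') ^ ε * M' ≤ N → Prim q f → (∀ i, |c₀ i| ≤ R + 3) →
    ∃ S : Set UnitAddCircle,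
      volume.real S ≤ C * R ^ ε * M' ^ s * ((q : ℝ) * Lam c₀) ^ (-(2 / (k : ℝ) * (s - 1))) / N ∧
      ∀ (η : Fin k → ℝ) (τ ξ : ℝ), (∀ i : Fin k, i.val ≠ 0 → |η i * (N : ℝ) ^ (i.val + 1) -
        c₀ i| ≤ 1) → -1 ≤ τ → τ ≤ 0 → 1 / M' ≤ VF q f N η τ ξ → (ξ : UnitAddCircle) ∈ S

/-! ### The sum over the cells -/

/-- AMD: the functional depends only on `f` modulo `q`. -/
def T_AMD : Prop := ∀ (k q : ℕ) (f f' : Fin k → ℤ) (N : ℝ) (η : Fin k → ℝ) (τ ξ : ℝ), 1 ≤ q →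
  (∀ i : Fin k, i.val ≠ 0 → (q : ℤ) ∣ f i - f' i) → VF q f N η τ ξ = VF q f' N η τ ξ

/-- ARC: the measure of an arc. -/
def T_ARC : Prop := ∀ a b : ℝ, a ≤ b →
  volume.real ((fun x : ℝ => (x : UnitAddCircle)) '' Set.Icc a b) ≤ b - a

/-- QSM: the sum over the denominators. -/
def T_QSM : Prop := ∀ κ : ℝ, 1 < κ → ∃ C : ℝ, 1 ≤ C ∧ ∀ Q : ℕ,
  ∑ q ∈ Icc 1 Q, (q : ℝ) ^ (-κ) ≤ C

/-- the cells -/
noncomputable def Dc (k : ℕ) (D : ℕ) : Finset (Fin k → ℤ) :=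
  Fintype.piFinset fun i : Fin k => if i.val = 0 then {0} else Icc (-(D : ℤ)) D

/-- the numerators -/
noncomputable def Fq (k q : ℕ) : Finset (Fin k → ℤ) :=
  Fintype.piFinset fun i : Fin k => if i.val = 0 then {0} else Ico (0 : ℤ) q

/-- CSM: the sum over the cells. -/
def T_CSM : Prop := ∀ k : ℕ, 2 ≤ k → ∀ κ : ℝ, (k : ℝ) - 1 < κ → ∃ C : ℝ, 1 ≤ C ∧ ∀ D : ℕ,
  ∑ c ∈ Dc k D, Lam (fun i => (c i : ℝ)) ^ (-κ) ≤ C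

/-- the points whose coordinates `i ≥ 1` lie in the cell `c` around `f/q` -/
def Bx {k : ℕ} (N q : ℕ) (f c : Fin k → ℤ) (S : Set UnitAddCircle) (i : Fin k) :
    Set UnitAddCircle :=
  if i.val = 0 then S else (fun x : ℝ => (x : UnitAddCircle)) ''
    Set.Icc ((f i : ℝ) / q + c i / (N : ℝ) ^ (i.val + 1))
      ((f i : ℝ) / q + (c i + 1) / (N : ℝ) ^ (i.val + 1))

/-- COV: the cover. -/
def T_COV : Prop := ∀ (k N : ℕ) (R M' : ℝ)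
  (S : ℕ → (Fin k → ℤ) → (Fin k → ℤ) → Set UnitAddCircle), 1 ≤ N → 1 ≤ R →
  (∀ (q : ℕ) (f c : Fin k → ℤ), 1 ≤ q → (q : ℝ) ≤ R → Prim q f → c ∈ Dc k (⌈R⌉₊ + 1) →
    ∀ (η : Fin k → ℝ) (τ ξ : ℝ), (∀ i : Fin k, i.val ≠ 0 → |η i * (N : ℝ) ^ (i.val + 1) -
      c i| ≤ 1) → -1 ≤ τ → τ ≤ 0 → 1 / M' ≤ VF q f N η τ ξ → (ξ : UnitAddCircle) ∈ S q f c) →
  WS k N R M' ⊆ ⋃ q ∈ Icc 1 ⌊R⌋₊, ⋃ f ∈ Fq k q, ⋃ c ∈ Dc k (⌈R⌉₊ + 1),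
    Set.pi Set.univ (Bx N q f c {y | Prim q f ∧ y ∈ S q f c})

/-- BXM: the measure of a box. -/
def T_BXM : Prop := ∀ (k N q : ℕ) (f c : Fin k → ℤ) (S : Set UnitAddCircle), 1 ≤ k → 1 ≤ N →
  (volume : Measure (X k)).real (Set.pi Set.univ (Bx N q f c S)) ≤
    volume.real S * N / (N : ℝ) ^ (KN k)

/-- ME: the measure of the points seen by the functional. -/
def T_ME : Prop :=
  ∀ k : ℕ, 3 ≤ k → ∀ s ε : ℝ, (k : ℝ) ^ 2 / 2 + 1 < s → 0 < ε → ∃ C : ℝ, 1 ≤ C ∧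
    ∀ (N : ℕ) (R M' : ℝ), 1 ≤ N → 1 ≤ R → 1 ≤ M' → C * (R * M') ^ ε * M' ≤ N →
      (N : ℝ) ^ (KN k) * volume.real (WS k N R M') ≤ C * R ^ ε * M' ^ s

end Pool.Agent.H50.LV
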